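import Pool.Agent.H27.L1.H34.GZ.Targets1

/-!
Row WSM of the board gz: the sum over the pairs of subgroups of finite index.
-/

set_option autoImplicit false

namespace Pool.Agent.H27.L1.H1.GZ

open Pool.Agent.H27.L1.H34.GM Pool.Agent.H27.L1.H34.GZ

lemma flg_top {m i : ℕ} (h : m ≤ i) : flg m i = ⊤ := by
  rw [eq_top_iff]
  intro v _ j hj
  have := j.2
  omega

lemma flg_bot (m : ℕ) : flg m 0 = ⊥ := by
  rw [eq_bot_iff]
  intro v hv
  rw [AddSubgroup.mem_bot]
  funext j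
  exact hv j (Nat.zero_le _)

lemma flg_mono (m : ℕ) : Monotone (flg m) := by
  intro i i' h v hv j hj
  exact hv j (h.trans hj)

/-- the index of an intersection -/
lemma rel_inf {A : Type} [AddCommGroup A] (M M' F : AddSubgroup A) :
    (M ⊓ M').relIndex F * ((M ⊓ F) ⊔ (M' ⊓ F)).relIndex F = M.relIndex F * M'.relIndex F := by
  have h1 : M.relIndex (M' ⊓ F) * M'.relIndex F = (M ⊓ M').relIndex F :=
    AddSubgroup.relIndex_inf_mul_relIndex M M' F
  have h2 : M.relIndex (M' ⊓ F) = (M ⊓ F).relIndex ((M ⊓ F) ⊔ (M' ⊓ F)) := by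
    rw [AddSubgroup.relIndex_sup_left, ← AddSubgroup.inf_relIndex_right M (M' ⊓ F),
      ← AddSubgroup.inf_relIndex_right (M ⊓ F) (M' ⊓ F)]
    congr 1
    apply le_antisymm
    · exact le_inf (le_inf inf_le_left (inf_le_right.trans inf_le_right)) inf_le_right
    · exact le_inf (inf_le_left.trans inf_le_left) inf_le_right
  have h3 : (M ⊓ F).relIndex ((M ⊓ F) ⊔ (M' ⊓ F)) * ((M ⊓ F) ⊔ (M' ⊓ F)).relIndex F =
      (M ⊓ F).relIndex F :=
    AddSubgroup.relIndex_mul_relIndex _ _ _ le_sup_left (sup_le inf_le_right inf_le_right)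
  rw [AddSubgroup.inf_relIndex_right] at h3
  rw [← h1, h2, ← h3]
  ring

/-- the inverse of the index of an intersection -/
lemma rel_inv {A : Type} [AddCommGroup A] (M M' F : AddSubgroup A) (h : M.relIndex F ≠ 0)
    (h' : M'.relIndex F ≠ 0) :
    (((M ⊓ M').relIndex F : ℕ) : ENNReal)⁻¹ =
      ((((M ⊓ F) ⊔ (M' ⊓ F)).relIndex F : ℕ) : ENNReal) *
        ((M.relIndex F : ℕ) : ENNReal)⁻¹ * ((M'.relIndex F : ℕ) : ENNReal)⁻¹ := by
  have h1 := rel_inf M M' F
  have h2 : (M ⊓ M').relIndex F * ((M ⊓ F) ⊔ (M' ⊓ F)).relIndex F ≠ 0 := by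
    rw [h1]
    exact Nat.mul_ne_zero h h'
  have h3 : (M ⊓ M').relIndex F ≠ 0 := left_ne_zero_of_mul h2
  have h4 : ((M ⊓ F) ⊔ (M' ⊓ F)).relIndex F ≠ 0 := right_ne_zero_of_mul h2
  have h5 : ((M.relIndex F : ℕ) : ENNReal) * ((M'.relIndex F : ℕ) : ENNReal) =
      (((M ⊓ M').relIndex F : ℕ) : ENNReal) *
        ((((M ⊓ F) ⊔ (M' ⊓ F)).relIndex F : ℕ) : ENNReal) := by
    exact_mod_cast h1.symm
  have e1 : ((((M ⊓ F) ⊔ (M' ⊓ F)).relIndex F : ℕ) : ENNReal) ≠ 0 := by exact_mod_cast h4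
  rw [mul_assoc, ← ENNReal.mul_inv (Or.inr (ENNReal.natCast_ne_top _))
      (Or.inl (ENNReal.natCast_ne_top _)), h5,
    ENNReal.mul_inv (Or.inr (ENNReal.natCast_ne_top _)) (Or.inl (ENNReal.natCast_ne_top _)),
    mul_comm (((M ⊓ M').relIndex F : ℕ) : ENNReal)⁻¹, ← mul_assoc,
    ENNReal.mul_inv_cancel e1 (ENNReal.natCast_ne_top _), one_mul]

/-- the chain of a pair of subgroups -/
def kof {m : ℕ} (p : AddSubgroup (Fin m → ℤ) × AddSubgroup (Fin m → ℤ)) :
    Fin m → AddSubgroup (Fin m → ℤ) :=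
  fun j => (p.1 ⊓ flg m ((j : ℕ) + 1)) ⊔ (p.2 ⊓ flg m ((j : ℕ) + 1))

/-- a chain numbered by the natural numbers -/
def ext {m : ℕ} (K : Fin m → AddSubgroup (Fin m → ℤ)) : ℕ → AddSubgroup (Fin m → ℤ)
  | 0 => ⊥
  | j + 1 => if h : j < m then K ⟨j, h⟩ else ⊤

lemma ext_succ {m : ℕ} (K : Fin m → AddSubgroup (Fin m → ℤ)) (j : ℕ) :
    ext K (j + 1) = if h : j < m then K ⟨j, h⟩ else ⊤ := rfl

/-- the conditions on a chain -/
def Chn (m : ℕ) (H : ℝ) (K : Fin m → AddSubgroup (Fin m → ℤ)) : Prop :=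
  (∀ j, K j ≤ flg m ((j : ℕ) + 1)) ∧ Monotone K ∧
      (∀ j, (K j).relIndex (flg m ((j : ℕ) + 1)) ≠ 0 ∧
        ((K j).relIndex (flg m ((j : ℕ) + 1)) : ℝ) ≤ H)

/-- the conditions on a subgroup -/
def Sub (m : ℕ) (H : ℝ) (K : Fin m → AddSubgroup (Fin m → ℤ)) (M : AddSubgroup (Fin m → ℤ)) :
    Prop :=
  M ≤ flg m m ∧ M.relIndex (flg m m) ≠ 0 ∧
      (M.relIndex (flg m m) : ℝ) ≤ H ∧ ∀ j ≤ m, M ⊓ flg m j ≤ ext K j

/-- the inverse indices of a subgroup -/
noncomputable def ivx (m : ℕ) (M : AddSubgroup (Fin m → ℤ)) : ENNReal :=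
  ∏ j ∈ Finset.range m, ((M.relIndex (flg m (j + 1)) : ℕ) : ENNReal)⁻¹

/-- the indices of a chain -/
noncomputable def idx {m : ℕ} (K : Fin m → AddSubgroup (Fin m → ℤ)) : ENNReal :=
  ∏ j : Fin m, (((K j).relIndex (flg m ((j : ℕ) + 1)) : ℕ) : ENNReal)

/-- the inverse indices of a chain -/
noncomputable def ivk {m : ℕ} (K : Fin m → AddSubgroup (Fin m → ℤ)) : ENNReal :=
  ∏ j : Fin m, (((K j).relIndex (flg m ((j : ℕ) + 1)) : ℕ) : ENNReal)⁻¹

lemma ivk_ext {m : ℕ} (K : Fin m → AddSubgroup (Fin m → ℤ)) :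
    ∏ j ∈ Finset.range m, (((ext K (j + 1)).relIndex (flg m (j + 1)) : ℕ) : ENNReal)⁻¹ =
      ivk K := by
  rw [Finset.prod_range]
  unfold ivk
  refine Finset.prod_congr rfl fun j _ => ?_
  have h : ext K ((j : ℕ) + 1) = K j := by
    rw [ext_succ, dif_pos j.2]
  rw [h]

lemma idx_mul_ivk {m : ℕ} {H : ℝ} {K : Fin m → AddSubgroup (Fin m → ℤ)} (h : Chn m H K) :
    idx K * ivk K = 1 := by
  unfold idx ivk
  rw [← Finset.prod_mul_distrib]
  refine Finset.prod_eq_one fun j _ => ?_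
  have h1 : (((K j).relIndex (flg m ((j : ℕ) + 1)) : ℕ) : ENNReal) ≠ 0 := by
    exact_mod_cast (h.2.2 j).1
  exact ENNReal.mul_inv_cancel h1 (ENNReal.natCast_ne_top _)

lemma chn_ext {m : ℕ} {H : ℝ} {K : Fin m → AddSubgroup (Fin m → ℤ)} (h : Chn m H K) :
    (∀ j, ext K j ≤ flg m j) ∧ (∀ j, ext K j ≤ ext K (j + 1)) ∧
      ∀ j, (ext K j).relIndex (flg m j) ≠ 0 := by
  refine ⟨fun j => ?_, fun j => ?_, fun j => ?_⟩
  · cases j with
    | zero => exact bot_le
    | succ j =>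
      rw [ext_succ]
      split_ifs with hj
      · exact h.1 ⟨j, hj⟩
      · rw [flg_top (by omega)]
  · cases j with
    | zero => exact bot_le
    | succ j =>
      rw [ext_succ, ext_succ]
      split_ifs with h1 h2
      · exact h.2.1 (Fin.mk_le_mk.2 (Nat.le_succ j))
      · exact le_top
      · omega
      · exact le_rfl
  · cases j with
    | zero =>
      rw [flg_bot, AddSubgroup.relIndex_bot_right]
      exact one_ne_zero
    | succ j =>
      rw [ext_succ]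
      split_ifs with hj
      · exact (h.2.2 ⟨j, hj⟩).1
      · rw [AddSubgroup.relIndex_top_left]
        exact one_ne_zero

lemma relIndex_le_index {A : Type} [AddCommGroup A] (M F : AddSubgroup A) (h : M.index ≠ 0) :
    M.relIndex F ≠ 0 ∧ M.relIndex F ≤ M.index := by
  have h1 : M.relIndex F ∣ M.index := AddSubgroup.relIndex_dvd_index_of_normal M F
  refine ⟨fun h2 => h ?_, Nat.le_of_dvd (Nat.pos_of_ne_zero h) h1⟩
  rw [h2] at h1
  exact Nat.eq_zero_of_zero_dvd h1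

lemma kof_chn {m : ℕ} {H : ℝ} {p : AddSubgroup (Fin m → ℤ) × AddSubgroup (Fin m → ℤ)}
    (h1 : p.1.index ≠ 0) (h3 : (p.1.index : ℝ) ≤ H) : Chn m H (kof p) := by
  refine ⟨fun j => sup_le inf_le_right inf_le_right, fun j j' h => ?_, fun j => ?_⟩
  · have h5 : flg m ((j : ℕ) + 1) ≤ flg m ((j' : ℕ) + 1) :=
      flg_mono m (Nat.succ_le_succ (Fin.le_def.1 h))
    exact sup_le_sup (inf_le_inf_left _ h5) (inf_le_inf_left _ h5)
  · obtain ⟨h5, h6⟩ := relIndex_le_index p.1 (flg m ((j : ℕ) + 1)) h1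
    have h7 : (kof p j).relIndex (flg m ((j : ℕ) + 1)) ∣ p.1.relIndex (flg m ((j : ℕ) + 1)) := by
      rw [← AddSubgroup.inf_relIndex_right p.1]
      exact AddSubgroup.relIndex_dvd_of_le_left _ le_sup_left
    refine ⟨fun h8 => h5 ?_, ?_⟩
    · rw [h8] at h7
      exact Nat.eq_zero_of_zero_dvd h7
    · have h8 := Nat.le_of_dvd (Nat.pos_of_ne_zero h5) h7
      have h9 : (((kof p j).relIndex (flg m ((j : ℕ) + 1)) : ℕ) : ℝ) ≤ (p.1.index : ℝ) := by
        exact_mod_cast h8.trans h6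
      exact h9.trans h3

lemma sub_of {m : ℕ} {H : ℝ} {K : Fin m → AddSubgroup (Fin m → ℤ)} {M : AddSubgroup (Fin m → ℤ)}
    (h1 : M.index ≠ 0) (h2 : (M.index : ℝ) ≤ H) (h3 : ∀ j : Fin m, M ⊓ flg m ((j : ℕ) + 1) ≤ K j) :
    Sub m H K M := by
  unfold Sub
  rw [flg_top le_rfl, AddSubgroup.relIndex_top_right]
  refine ⟨le_top, h1, h2, fun j hj => ?_⟩
  cases j with
  | zero => rw [flg_bot]; exact inf_le_right
  | succ j =>
    rw [ext_succ, dif_pos (by omega)]
    exact h3 ⟨j, by omega⟩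

lemma prod_kof {m : ℕ} {p : AddSubgroup (Fin m → ℤ) × AddSubgroup (Fin m → ℤ)}
    (h1 : p.1.index ≠ 0) (h2 : p.2.index ≠ 0) :
    ∏ i ∈ Finset.range m, (((p.1 ⊓ p.2).relIndex (flg m (i + 1)) : ℕ) : ENNReal)⁻¹ =
      idx (kof p) * ivx m p.1 * ivx m p.2 := by
  have e : idx (kof p) = ∏ i ∈ Finset.range m,
      ((((p.1 ⊓ flg m (i + 1)) ⊔ (p.2 ⊓ flg m (i + 1))).relIndex (flg m (i + 1)) : ℕ) :
        ENNReal) := by
    rw [Finset.prod_range]
    rfl
  rw [e]
  unfold ivx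
  rw [← Finset.prod_mul_distrib, ← Finset.prod_mul_distrib]
  refine Finset.prod_congr rfl fun i _ => ?_
  exact rel_inv p.1 p.2 _ (relIndex_le_index _ _ h1).1 (relIndex_le_index _ _ h2).1

open Classical in
/-- WSM -/
theorem pf_WSM : T_FLG → T_CHN → T_WSM := by
  intro hF hC m
  refine ⟨1, 2 * m + m * m, one_pos, ?_⟩
  intro H hH
  obtain ⟨ℓ, hℓ⟩ : ∃ ℓ : ENNReal, ℓ = ENNReal.ofReal ((1 + Real.log H) ^ m) := ⟨_, rfl⟩
  have hL : 0 ≤ 1 + Real.log H := by
    have := Real.log_nonneg hH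
    linarith
  -- the sum over the subgroups of a chain
  have hf : ∀ K : Fin m → AddSubgroup (Fin m → ℤ), Chn m H K →
      ∑' M : AddSubgroup (Fin m → ℤ), (if Sub m H K M then ivx m M else 0) ≤ ℓ * ivk K := by
    intro K hK
    obtain ⟨a1, a2, a3⟩ := chn_ext hK
    have h := hF m m le_rfl H hH (ext K) a1 a2 a3
    rw [ivk_ext, ← hℓ] at h
    refine le_trans (le_of_eq (tsum_congr fun M => ?_)) h
    by_cases hs : Sub m H K M
    · rw [if_pos hs]
      exact (if_pos hs).symm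
    · rw [if_neg hs]
      exact (if_neg hs).symm
  -- one pair
  have hp : ∀ p : AddSubgroup (Fin m → ℤ) × AddSubgroup (Fin m → ℤ),
      (if p.1.index ≠ 0 ∧ p.2.index ≠ 0 ∧ (p.1.index : ℝ) ≤ H ∧ (p.2.index : ℝ) ≤ H then
        ∏ i ∈ Finset.range m, (((p.1 ⊓ p.2).relIndex (flg m (i + 1)) : ℕ) : ENNReal)⁻¹ else 0) ≤
      ∑' K : Fin m → AddSubgroup (Fin m → ℤ), (if Chn m H K then idx K else 0) *
        ((if Sub m H K p.1 then ivx m p.1 else 0) * (if Sub m H K p.2 then ivx m p.2 else 0)) := by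
    intro p
    split_ifs with h
    · obtain ⟨h1, h2, h3, h4⟩ := h
      refine le_trans (le_of_eq ?_) (ENNReal.le_tsum (kof p))
      have s1 : Sub m H (kof p) p.1 := sub_of h1 h3 fun j => le_sup_left
      have s2 : Sub m H (kof p) p.2 := sub_of h2 h4 fun j => le_sup_right
      rw [if_pos (kof_chn h1 h3), if_pos s1, if_pos s2, prod_kof h1 h2, mul_assoc]
    · exact bot_le
  calc _ ≤ ∑' p : AddSubgroup (Fin m → ℤ) × AddSubgroup (Fin m → ℤ),
        ∑' K : Fin m → AddSubgroup (Fin m → ℤ), (if Chn m H K then idx K else 0) *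
        ((if Sub m H K p.1 then ivx m p.1 else 0) * (if Sub m H K p.2 then ivx m p.2 else 0)) :=
        ENNReal.tsum_le_tsum hp
    _ = ∑' K : Fin m → AddSubgroup (Fin m → ℤ), (if Chn m H K then idx K else 0) *
        ((∑' M : AddSubgroup (Fin m → ℤ), (if Sub m H K M then ivx m M else 0)) *
          ∑' M : AddSubgroup (Fin m → ℤ), (if Sub m H K M then ivx m M else 0)) := by
        rw [ENNReal.tsum_comm]
        refine tsum_congr fun K => ?_
        rw [ENNReal.tsum_mul_left]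
        congr 1
        refine (ENNReal.tsum_prod (f := fun M M' : AddSubgroup (Fin m → ℤ) =>
          (if Sub m H K M then ivx m M else 0) * (if Sub m H K M' then ivx m M' else 0))).trans ?_
        rw [← ENNReal.tsum_mul_right]
        refine tsum_congr fun M => ?_
        exact ENNReal.tsum_mul_left
    _ ≤ ∑' K : Fin m → AddSubgroup (Fin m → ℤ), ℓ * ℓ * (if Chn m H K then ivk K else 0) := by
        refine ENNReal.tsum_le_tsum fun K => ?_
        split_ifs with hK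
        · have h1 := hf K hK
          calc _ ≤ idx K * ((ℓ * ivk K) * (ℓ * ivk K)) := by gcongr
            _ = ℓ * ℓ * (idx K * ivk K) * ivk K := by ring
            _ = ℓ * ℓ * ivk K := by rw [idx_mul_ivk hK, mul_one]
        · rw [zero_mul, mul_zero]
    _ = ℓ * ℓ * ∑' K : Fin m → AddSubgroup (Fin m → ℤ), (if Chn m H K then ivk K else 0) :=
        ENNReal.tsum_mul_left
    _ ≤ ℓ * ℓ * ENNReal.ofReal ((1 + Real.log H) ^ (m * m)) := by
        gcongr
        refine le_trans (le_of_eq (tsum_congr fun K => ?_)) (hC m H hH)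
        by_cases hs : Chn m H K
        · rw [if_pos hs]
          exact (if_pos hs).symm
        · rw [if_neg hs]
          exact (if_neg hs).symm
    _ = ENNReal.ofReal (1 * (1 + Real.log H) ^ (2 * m + m * m)) := by
        rw [hℓ, ← ENNReal.ofReal_mul (by positivity), ← ENNReal.ofReal_mul (by positivity)]
        congr 1
        ring

end Pool.Agent.H27.L1.H1.GZ
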